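import Mathlib

/-! Generic polynomials: the monomials `x^a y^b` at the points `(r, G r)`. -/

namespace Pool.Agent.R457.CohT

open Polynomial

theorem unpair_lt {n l : ℕ} (h : l < n * n) : l.unpair.1 < n ∧ l.unpair.2 < n := by
  have h1 := Nat.max_sq_add_min_le_pair l.unpair.1 l.unpair.2
  rw [Nat.pair_unpair] at h1
  have h2 : max l.unpair.1 l.unpair.2 < n := by
    by_contra hcon
    push Not at hcon
    have : n ^ 2 ≤ max l.unpair.1 l.unpair.2 ^ 2 := Nat.pow_le_pow_left hcon 2
    rw [pow_two n] at this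
    omega
  exact ⟨lt_of_le_of_lt (le_max_left _ _) h2, lt_of_le_of_lt (le_max_right _ _) h2⟩

theorem pair_lt {n a b : ℕ} (ha : a < n) (hb : b < n) : Nat.pair a b < n * n := by
  have h1 := Nat.pair_lt_max_add_one_sq a b
  have h2 : max a b + 1 ≤ n := by
    have := max_lt ha hb
    omega
  have h3 : (max a b + 1) ^ 2 ≤ n ^ 2 := Nat.pow_le_pow_left h2 2
  nlinarith

section generic
variable {E : Type*} [Field E]

/-- the matrix of the monomials `x^a y^b` (`a, b < n`) at given points -/
def mon (n : ℕ) (x y : Fin (n * n) → E) : Matrix (Fin (n * n)) (Fin (n * n)) E :=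
  Matrix.of fun j l => x j ^ (l : ℕ).unpair.1 * y j ^ (l : ℕ).unpair.2

theorem det_mon_pow (n : ℕ) (x : Fin (n * n) → E) (hx : Function.Injective x) :
    (mon n x fun j => x j ^ n).det ≠ 0 := by
  intro h0
  obtain ⟨v, hv, hv0⟩ := Matrix.exists_mulVec_eq_zero_iff.2 h0
  let e : Fin (n * n) → ℕ := fun l => (l : ℕ).unpair.1 + n * (l : ℕ).unpair.2
  have he : Function.Injective e := by
    intro l l' hll
    have h1 := unpair_lt l.2
    have h2 := unpair_lt l'.2
    have h3 : (l : ℕ).unpair.1 + n * (l : ℕ).unpair.2 =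
      (l' : ℕ).unpair.1 + n * (l' : ℕ).unpair.2 := hll
    have h4 : (l : ℕ).unpair.1 = (l' : ℕ).unpair.1 := by
      have := congr_arg (· % n) h3
      simpa [Nat.add_mul_mod_self_left, Nat.mod_eq_of_lt h1.1, Nat.mod_eq_of_lt h2.1] using this
    have h5 : (l : ℕ).unpair.2 = (l' : ℕ).unpair.2 := by
      rw [h4] at h3
      have hn : 0 < n := lt_of_le_of_lt (Nat.zero_le _) h1.1
      exact Nat.eq_of_mul_eq_mul_left hn (by omega)
    apply Fin.ext
    rw [← Nat.pair_unpair (l : ℕ), h4, h5, Nat.pair_unpair]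
  have hlt : ∀ l, e l < n * n := by
    intro l
    have h1 := unpair_lt l.2
    have : n * (l : ℕ).unpair.2 + n ≤ n * n := by
      have := Nat.mul_le_mul_left n (Nat.succ_le_of_lt h1.2)
      rw [Nat.mul_succ] at this
      exact this
    have h2 := h1.1
    change (l : ℕ).unpair.1 + n * (l : ℕ).unpair.2 < n * n
    omega
  let P : E[X] := ∑ l, C (v l) * X ^ e l
  have hev : ∀ j, P.eval (x j) = 0 := by
    intro j
    have h1 := congr_fun hv0 j
    simp only [Matrix.mulVec, dotProduct, mon, Matrix.of_apply, Pi.zero_apply] at h1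
    rw [eval_finsetSum, ← h1]
    refine Finset.sum_congr rfl fun l _ => ?_
    simp only [eval_mul, eval_C, eval_pow, eval_X]
    rw [pow_add, pow_mul, mul_comm]
  have hP : P = 0 := by
    refine eq_zero_of_natDegree_lt_card_of_eval_eq_zero P hx hev ?_
    rw [Fintype.card_fin]
    rcases Nat.eq_zero_or_pos (n * n) with h | h
    · exfalso
      obtain ⟨l, hl⟩ := Function.ne_iff.1 hv
      have := l.2
      omega
    refine lt_of_le_of_lt (natDegree_sum_le_of_forall_le (n := n * n - 1) _ _ fun l _ => ?_)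
      (by omega)
    refine (natDegree_C_mul_X_pow_le _ _).trans ?_
    have := hlt l
    omega
  apply hv
  funext l
  have h1 := congr_arg (fun Q : E[X] => Q.coeff (e l)) hP
  simp only [P, finsetSum_coeff, coeff_C_mul, coeff_X_pow, coeff_zero] at h1
  rw [Finset.sum_eq_single l] at h1
  · simpa using h1
  · intro l' _ hl'
    rw [if_neg (fun h => hl' (he h).symm), mul_zero]
  · intro h
    exact absurd (Finset.mem_univ _) h

variable {F : Type*} [Field F] [Algebra F E]

/-- Over an infinite field there are polynomials `G` such that no `n ^ 2` of the points `(r, G r)`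
lie on a curve of bidegree `< n`. -/
theorem exists_generic [Infinite F] {M : ℕ} (r : Fin M → E) (hr : Function.Injective r) (i : ℕ) :
    ∃ G : F[X], ∀ n ≤ i, ∀ u : Fin (n * n) → Fin M, Function.Injective u →
      (mon n (fun j => r (u j)) fun j => aeval (r (u j)) G).det ≠ 0 := by
  classical
  induction i with
  | zero =>
    refine ⟨0, fun n hn u _ => ?_⟩
    obtain rfl : n = 0 := by omega
    have : IsEmpty (Fin (0 * 0)) := by
      rw [Nat.mul_zero]; infer_instance
    rw [Matrix.det_isEmpty]
    exact one_ne_zero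
  | succ i ih =>
    obtain ⟨G, hG⟩ := ih
    let D : (n : ℕ) → (Fin (n * n) → Fin M) → E[X] := fun n u =>
      (Matrix.of fun (j l : Fin (n * n)) => C (r (u j)) ^ (l : ℕ).unpair.1 *
        ((1 - X) * C (aeval (r (u j)) G) + X * C (r (u j)) ^ (i + 1)) ^ (l : ℕ).unpair.2).det
    have hD : ∀ n u (s : E), (D n u).eval s = (mon n (fun j => r (u j)) fun j =>
        (1 - s) * aeval (r (u j)) G + s * r (u j) ^ (i + 1)).det := by
      intro n u s
      change (evalRingHom s) (Matrix.det _) = _
      rw [RingHom.map_det]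
      congr 1
      ext j l
      simp [mon]
    have hne : ∀ n ≤ i + 1, ∀ u : Fin (n * n) → Fin M, Function.Injective u → D n u ≠ 0 := by
      intro n hn u hu h0
      rcases Nat.lt_or_ge i n with h1 | h1
      · obtain rfl : n = i + 1 := by omega
        apply det_mon_pow (i + 1) (fun j => r (u j)) (hr.comp hu)
        have := hD (i + 1) u 1
        rw [h0] at this
        simpa using this.symm
      · apply hG n h1 u hu
        have := hD n u 0
        rw [h0] at this
        simpa using this.symm
    let Q : E[X] := ∏ n ∈ Finset.range (i + 2),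
      ∏ u ∈ (Finset.univ.filter Function.Injective : Finset (Fin (n * n) → Fin M)), D n u
    have hQ : Q ≠ 0 := by
      refine Finset.prod_ne_zero_iff.2 fun n hn => Finset.prod_ne_zero_iff.2 fun u hu => ?_
      exact hne n (by have := Finset.mem_range.1 hn; omega) u (Finset.mem_filter.1 hu).2
    obtain ⟨s, hs⟩ := Infinite.exists_notMem_finset
      (Q.roots.toFinset.preimage (algebraMap F E) (algebraMap F E).injective.injOn)
    have hs2 : Q.eval (algebraMap F E s) ≠ 0 := by
      intro h
      apply hs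
      rw [Finset.mem_preimage, Multiset.mem_toFinset, mem_roots hQ]
      exact h
    refine ⟨(1 - C s) * G + C s * X ^ (i + 1), fun n hn u hu h0 => hs2 ?_⟩
    rw [eval_prod]
    refine Finset.prod_eq_zero (i := n) (Finset.mem_range.2 (by omega)) ?_
    rw [eval_prod]
    refine Finset.prod_eq_zero (i := u) (Finset.mem_filter.2 ⟨Finset.mem_univ _, hu⟩) ?_
    rw [hD, ← h0]
    congr 1
    ext j l
    simp [mon]

end generic

section sound
variable {F K Ω : Type*} [Field F] [Field K] [Field Ω] [Algebra F K] [Algebra F Ω] [IsAlgClosed Ω]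

/-- independence from the unisolvence of all `n ^ 2` conjugates -/
theorem indep_of_cert {α : K} (hint : IsIntegral F α) (hsep : (minpoly F α).Separable) {n : ℕ}
    (hdeg : n * n ≤ (minpoly F α).natDegree) {M : ℕ} {r : ℕ → Ω} {f : F[X]}
    (hf : aeval α f = 0) (hfr : f.map (algebraMap F Ω) = ∏ j ∈ Finset.range M, (X - C (r j)))
    {G : F[X]}
    (hV : ∀ u : Fin (n * n) → Fin M, Function.Injective u →
      ∃ V : Matrix (Fin (n * n)) (Fin (n * n)) Ω,
        V * mon n (fun j => r (u j)) (fun j => aeval (r (u j)) G) = 1)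
    (q : Fin (n * n) → F)
    (hq : ∑ l, algebraMap F K (q l) *
      (α ^ (l : ℕ).unpair.1 * (aeval α G) ^ (l : ℕ).unpair.2) = 0) : q = 0 := by
  classical
  set p := minpoly F α with hp
  have hp0 : p ≠ 0 := minpoly.ne_zero hint
  -- the conjugates
  have hcard : Fintype.card (p.rootSet Ω) = p.natDegree :=
    card_rootSet_eq_natDegree hsep (IsAlgClosed.splits _)
  obtain ⟨w, hw⟩ : ∃ w : Fin (n * n) → Ω, Function.Injective w ∧ ∀ j, w j ∈ p.rootSet Ω := by
    have h1 : Fintype.card (Fin (n * n)) ≤ Fintype.card (p.rootSet Ω) := by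
      rw [Fintype.card_fin, hcard]; exact hdeg
    obtain ⟨w⟩ := Function.Embedding.nonempty_of_card_le h1
    exact ⟨fun j => (w j : Ω), Subtype.val_injective.comp w.injective, fun j => (w j).2⟩
  obtain ⟨hw1, hw2⟩ := hw
  have hw3 : ∀ j, aeval (w j) p = 0 := fun j => (mem_rootSet.1 (hw2 j)).2
  have hdvd : ∀ (Q : F[X]), aeval α Q = 0 → ∀ j, aeval (w j) Q = 0 := by
    intro Q hQ j
    obtain ⟨R, hR⟩ := minpoly.dvd F α hQ
    rw [hR, map_mul, ← hp, hw3 j, zero_mul]
  have hex : ∀ j, ∃ k : Fin M, w j = r k := by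
    intro j
    have h1 := hdvd f hf j
    rw [aeval_def, eval₂_eq_eval_map, hfr, eval_prod, Finset.prod_eq_zero_iff] at h1
    obtain ⟨k, hk, hk2⟩ := h1
    refine ⟨⟨k, Finset.mem_range.1 hk⟩, ?_⟩
    rw [eval_sub, eval_X, eval_C, sub_eq_zero] at hk2
    exact hk2
  choose u hu using hex
  have huinj : Function.Injective u := by
    intro j j' h
    apply hw1
    rw [hu, hu, h]
  obtain ⟨V, hVm⟩ := hV u huinj
  let Q : F[X] := ∑ l : Fin (n * n), C (q l) * (X ^ (l : ℕ).unpair.1 * G ^ (l : ℕ).unpair.2)
  have hQα : aeval α Q = 0 := by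
    rw [← hq]
    simp only [Q, map_sum, map_mul, map_pow, aeval_C, aeval_X]
  have h1 : (mon n (fun j => r (u j)) (fun j => aeval (r (u j)) G)).mulVec
      (fun l => algebraMap F Ω (q l)) = 0 := by
    funext j
    have h2 := hdvd Q hQα j
    rw [hu] at h2
    simp only [Q, map_sum, map_mul, map_pow, aeval_C, aeval_X] at h2
    simp only [Matrix.mulVec, dotProduct, mon, Matrix.of_apply, Pi.zero_apply]
    rw [← h2]
    refine Finset.sum_congr rfl fun l _ => ?_
    ring
  have h3 : (fun l => algebraMap F Ω (q l)) = 0 := by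
    have h4 := congr_arg V.mulVec h1
    rw [Matrix.mulVec_mulVec, hVm, Matrix.one_mulVec, Matrix.mulVec_zero] at h4
    exact h4
  funext l
  have h5 := congr_fun h3 l
  simpa using h5

end sound

end Pool.Agent.R457.CohT
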