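import Pool.Agent.R457.CohT.A
import Pool.Agent.R626.CohB

/-! Certificates for generic polynomials, coded by natural numbers. -/

namespace Pool.Agent.R457.CohT

open Polynomial Pool.Agent.R626.Coh

/-- entry `k` of the list with code `L` -/
def getc (L k : ℕ) : ℕ := (Denumerable.ofNat (List ℕ) L).getD k 0

theorem exists_getc (c : ℕ → ℕ) (N : ℕ) : ∃ L, ∀ z < N, getc L z = c z := by
  refine ⟨Encodable.encode ((List.range N).map c), fun z hz => ?_⟩
  unfold getc
  rw [Denumerable.ofNat_encode]
  simp [List.getD, hz]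

section defs
variable (F : Set ℕ) [Field F]

/-- polynomial number `q` of the code `L` (degree `< B`) -/
noncomputable def pol (L B q : ℕ) : (F : Type)[X] :=
  ∑ k ∈ Finset.range B, C (toK F (getc L (Nat.pair q k))) * X ^ k

theorem natDegree_pol (L B q : ℕ) : (pol F L B q).natDegree ≤ B - 1 := by
  unfold pol
  refine natDegree_sum_le_of_forall_le _ _ fun k hk => (natDegree_C_mul_X_pow_le _ _).trans ?_
  have := Finset.mem_range.1 hk
  omega

theorem natDegree_pol' (L B q : ℕ) : (pol F L B q).natDegree ≤ B :=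
  (natDegree_pol F L B q).trans (Nat.sub_le _ _)

theorem pol_eq {L B q : ℕ} {P : (F : Type)[X]} (hP : P.natDegree < B)
    (h : ∀ k < B, getc L (Nat.pair q k) = ((P.coeff k : F) : ℕ)) : pol F L B q = P := by
  unfold pol
  rw [P.as_sum_range' B hP]
  refine Finset.sum_congr rfl fun k hk => ?_
  rw [h k (Finset.mem_range.1 hk), toK_coe, C_mul_X_pow_eq_monomial]

/-- digit -/
def dig (M c j : ℕ) : ℕ := (c / M ^ j) % M

/-- the modulus -/
noncomputable def gp (L m : ℕ) : (F : Type)[X] := X ^ (m + 1) + pol F L (m + 1) (Nat.pair 1 0)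

/-- the annihilating polynomial -/
noncomputable def fp (L M : ℕ) : (F : Type)[X] := pol F L (M + 1) (Nat.pair 0 0)

/-- the roots -/
noncomputable def rp (L B j : ℕ) : (F : Type)[X] := pol F L B (Nat.pair 2 j)

/-- the generic polynomial -/
noncomputable def Gp (L B : ℕ) : (F : Type)[X] := pol F L B (Nat.pair 3 0)

/-- first identity -/
noncomputable def PB (e : F) (M m B L x : ℕ) : (F : Type)[X] :=
  C (eval e (fp F L M)) - ∏ j ∈ Finset.range M, (C e - rp F L B j) -
    gp F L m * pol F L B (Nat.pair 4 x)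

/-- second identity -/
noncomputable def PC (M m B L n c l l' : ℕ) : (F : Type)[X] :=
  (∑ j ∈ Finset.range (n * n), pol F L B (Nat.pair 5 (Nat.pair (Nat.pair n c) (Nat.pair l j))) *
    (rp F L B (dig M c j) ^ l'.unpair.1 * ((Gp F L B).comp (rp F L B (dig M c j))) ^ l'.unpair.2)) -
    (if l = l' then 1 else 0) -
    gp F L m * pol F L B (Nat.pair 6 (Nat.pair (Nat.pair n c) (Nat.pair l l')))

/-- degree bound -/
def TT (i M m B : ℕ) : ℕ := M * B + B + i * B + i * (B * B) + m + 2

theorem natDegree_gp_mul (L m B q : ℕ) : (gp F L m * pol F L B q).natDegree ≤ m + 1 + B := by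
  refine natDegree_mul_le.trans (Nat.add_le_add ?_ (natDegree_pol' F L B q))
  unfold gp
  refine (natDegree_add_le _ _).trans (max_le ?_ (natDegree_pol' F _ _ _))
  rw [natDegree_X_pow]

theorem natDegree_PB (e : F) (i M m B L x : ℕ) : (PB F e M m B L x).natDegree < TT i M m B := by
  unfold PB
  have h1 : (C (eval e (fp F L M)) - ∏ j ∈ Finset.range M, (C e - rp F L B j)).natDegree ≤
      M * B := by
    refine (natDegree_sub_le _ _).trans (max_le ?_ ?_)
    · rw [natDegree_C]; exact Nat.zero_le _
    · refine (natDegree_prod_le _ _).trans ?_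
      have : ∀ j ∈ Finset.range M, (C e - rp F L B j).natDegree ≤ B := by
        intro j _
        refine (natDegree_sub_le _ _).trans (max_le ?_ (natDegree_pol' F _ _ _))
        rw [natDegree_C]; exact Nat.zero_le _
      refine (Finset.sum_le_sum this).trans ?_
      rw [Finset.sum_const, Finset.card_range, smul_eq_mul]
  refine lt_of_le_of_lt ((natDegree_sub_le _ _).trans
    (max_le_max h1 (natDegree_gp_mul F L m B _))) (max_lt ?_ ?_)
  all_goals
    unfold TT
    omega

theorem natDegree_PC {i M m B L n c l l' : ℕ} (hn : n ≤ i) (hl' : l' < n * n) :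
    (PC F M m B L n c l l').natDegree < TT i M m B := by
  unfold PC
  have h1 : (∑ j ∈ Finset.range (n * n),
      pol F L B (Nat.pair 5 (Nat.pair (Nat.pair n c) (Nat.pair l j))) *
    (rp F L B (dig M c j) ^ l'.unpair.1 *
      ((Gp F L B).comp (rp F L B (dig M c j))) ^ l'.unpair.2)).natDegree ≤
      B + (i * B + i * (B * B)) := by
    refine natDegree_sum_le_of_forall_le _ _ fun j _ => ?_
    obtain ⟨h2, h3⟩ := unpair_lt hl'
    refine natDegree_mul_le.trans (Nat.add_le_add (natDegree_pol' F _ _ _)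
      (natDegree_mul_le.trans (Nat.add_le_add ?_ ?_)))
    · refine natDegree_pow_le.trans (Nat.mul_le_mul (by omega) (natDegree_pol' F _ _ _))
    · refine natDegree_pow_le.trans (Nat.mul_le_mul (by omega) ?_)
      rw [natDegree_comp]
      exact Nat.mul_le_mul (natDegree_pol' F _ _ _) (natDegree_pol' F _ _ _)
  have h2 : ((if l = l' then 1 else 0 : (F : Type)[X])).natDegree ≤ B + (i * B + i * (B * B)) := by
    split_ifs <;> simp
  refine lt_of_le_of_lt ((natDegree_sub_le _ _).trans (max_le_max ((natDegree_sub_le _ _).trans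
    (max_le h1 h2)) (natDegree_gp_mul F L m B _))) (max_lt ?_ ?_)
  all_goals
    unfold TT
    omega

/-- the check -/
def ChkB (e : ℕ → F) (i M m B L : ℕ) : Prop :=
  ∀ x < M + 1, ∀ τ < TT i M m B, eval (e τ) (PB F (e x) M m B L x) = 0

/-- the check -/
def ChkC (e : ℕ → F) (i M m B L : ℕ) : Prop :=
  ∀ n < i + 1, ∀ c < M ^ (n * n), (∀ j < n * n, ∀ j' < j, dig M c j ≠ dig M c j') →
    ∀ l < n * n, ∀ l' < n * n, ∀ τ < TT i M m B, eval (e τ) (PC F M m B L n c l l') = 0

end defs

section sound
variable {F K : Set ℕ} [Field F] [Field K] [Algebra F K]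

theorem eq_zero_of_eval {R : Type*} [Field R] {e : ℕ → R} (he : Function.Injective e) {P : R[X]}
    {T : ℕ} (hT : P.natDegree < T) (h : ∀ τ < T, eval (e τ) P = 0) : P = 0 := by
  refine eq_zero_of_natDegree_lt_card_of_eval_eq_zero (ι := Fin T) P (f := fun j => e j)
    (fun a b hab => Fin.ext (he hab)) (fun j => h j j.2) ?_
  rw [Fintype.card_fin]; exact hT

theorem sound {e : ℕ → F} (he : Function.Injective e) {i M m B L : ℕ} {α : K}
    (hint : IsIntegral F α) (hsep : (minpoly F α).Separable)
    (hA : aeval α (fp F L M) = 0) (hB : ChkB F e i M m B L) (hC : ChkC F e i M m B L)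
    {n : ℕ} (hn : n ≤ i) (hdeg : n * n ≤ (minpoly F α).natDegree)
    (q : Fin (n * n) → F)
    (hq : ∑ l, algebraMap F K (q l) *
      (α ^ (l : ℕ).unpair.1 * (aeval α (Gp F L B)) ^ (l : ℕ).unpair.2) = 0) : q = 0 := by
  classical
  let Ω := AlgebraicClosure F
  -- a root of the modulus
  have hg : (gp F L m).natDegree = m + 1 := by
    unfold gp
    rw [natDegree_add_eq_left_of_natDegree_lt, natDegree_X_pow]
    rw [natDegree_X_pow]
    have := natDegree_pol F L (m + 1) (Nat.pair 1 0)
    omega
  obtain ⟨θ, hθ⟩ : ∃ θ : Ω, aeval θ (gp F L m) = 0 := by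
    refine IsAlgClosed.exists_aeval_eq_zero _ _ ?_
    intro h
    have := natDegree_eq_zero_iff_degree_le_zero.2 h.le
    omega
  let r : ℕ → Ω := fun j => aeval θ (rp F L B j)
  have hB2 : ∀ x < M + 1, algebraMap F Ω (eval (e x) (fp F L M)) =
      ∏ j ∈ Finset.range M, (algebraMap F Ω (e x) - r j) := by
    intro x hx
    have h1 := eq_zero_of_eval he (natDegree_PB F (e x) i M m B L x) (hB x hx)
    have h2 := congr_arg (aeval θ) h1
    unfold PB at h2
    simp only [map_sub, map_mul, hθ, zero_mul, sub_zero, map_prod, aeval_C, map_zero] at h2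
    exact sub_eq_zero.1 h2
  have hfr : (fp F L M).map (algebraMap F Ω) = ∏ j ∈ Finset.range M, (X - C (r j)) := by
    rw [← sub_eq_zero]
    refine eq_zero_of_natDegree_lt_card_of_eval_eq_zero (ι := Fin (M + 1)) _
      (f := fun j => algebraMap F Ω (e j))
      (fun a b hab => Fin.ext (he ((algebraMap F Ω).injective hab))) (fun j => ?_) ?_
    · have h1 := hB2 j j.2
      simp only [eval_sub, eval_prod, eval_X, eval_C]
      rw [eval_map, eval₂_at_apply, h1, sub_self]
    · rw [Fintype.card_fin]
      refine Nat.lt_succ_of_le ((natDegree_sub_le _ _).trans (max_le ?_ ?_))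
      · refine natDegree_map_le.trans ?_
        exact natDegree_pol F L (M + 1) _
      · refine (natDegree_prod_le _ _).trans ?_
        refine (Finset.sum_le_card_nsmul _ _ 1 fun j _ => ?_).trans ?_
        · rw [natDegree_X_sub_C]
        · rw [Finset.card_range, smul_eq_mul, mul_one]
  refine indep_of_cert (Ω := Ω) hint hsep hdeg hA hfr (G := Gp F L B) ?_ q hq
  intro u hu
  -- the code of `u`
  let c : ℕ := (finFunctionFinEquiv u : Fin (M ^ (n * n)))
  have hc : c < M ^ (n * n) := Fin.is_lt _
  have hdig : ∀ j : Fin (n * n), dig M c j = u j := by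
    intro j
    have h1 : finFunctionFinEquiv.symm (finFunctionFinEquiv u) = u := Equiv.symm_apply_apply _ _
    have h2 : ((finFunctionFinEquiv.symm (finFunctionFinEquiv u) j : Fin M) : ℕ) = (u j : ℕ) := by
      rw [h1]
    rw [← h2]
    rfl
  have hinj : ∀ j < n * n, ∀ j' < j, dig M c j ≠ dig M c j' := by
    intro j hj j' hj' h
    have h1 := hdig ⟨j, hj⟩
    have h2 := hdig ⟨j', by omega⟩
    have h3 : u ⟨j, hj⟩ = u ⟨j', by omega⟩ := Fin.ext (by rw [← h1, ← h2, h])
    have h4 := hu h3
    simp only [Fin.mk.injEq] at h4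
    omega
  refine ⟨Matrix.of fun l j => aeval θ (pol F L B (Nat.pair 5 (Nat.pair (Nat.pair n c)
    (Nat.pair (l : ℕ) (j : ℕ))))), ?_⟩
  ext l l'
  have h1 := eq_zero_of_eval he (natDegree_PC F (m := m) (B := B) (L := L) (c := c) (M := M)
    (l := (l : ℕ)) hn l'.2) (hC n (by omega) c hc hinj l l.2 l' l'.2)
  have h2 := congr_arg (aeval θ) h1
  unfold PC at h2
  simp only [map_sub, map_mul, hθ, zero_mul, sub_zero, map_sum, map_zero, map_pow,
    aeval_comp] at h2
  rw [Matrix.mul_apply]
  simp only [Matrix.of_apply, mon]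
  rw [sub_eq_zero] at h2
  rw [Matrix.one_apply]
  have h3 : aeval θ (if (l : ℕ) = (l' : ℕ) then (1 : (F : Type)[X]) else 0) =
      (if l = l' then (1 : Ω) else 0) := by
    by_cases h : l = l'
    · simp [h]
    · rw [if_neg h, if_neg (fun h' => h (Fin.ext h')), map_zero]
  rw [h3] at h2
  rw [← h2, Finset.sum_range]
  refine Finset.sum_congr rfl fun j _ => ?_
  rw [hdig j]

end sound

end Pool.Agent.R457.CohT
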