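import Pool.Agent.R457.CohT.B
import Pool.Agent.R626.CohA

/-! Existence of certificates. -/

namespace Pool.Agent.R457.CohT

open Polynomial Pool.Agent.R626.Coh Filter

section abs
variable {F K : Type*} [Field F] [Field K] [Algebra F K]

theorem exists_abs [Infinite F] {α : K} (hint : IsIntegral F α)
    (hsep : (minpoly F α).Separable) (i : ℕ) :
    ∃ (g : F[X]) (m : ℕ) (ρ : ℕ → F[X]) (G : F[X]) (V : ℕ → ℕ → ℕ → ℕ → F[X]),
      g.Monic ∧ g.natDegree = m + 1 ∧
      (∀ x : F, g ∣ C (eval x (minpoly F α)) -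
        ∏ j ∈ Finset.range (minpoly F α).natDegree, (C x - ρ j)) ∧
      (∀ n ≤ i, ∀ c, (∀ j < n * n, ∀ j' < j, dig (minpoly F α).natDegree c j ≠
        dig (minpoly F α).natDegree c j') → ∀ l < n * n, ∀ l' < n * n,
        g ∣ (∑ j ∈ Finset.range (n * n), V n c l j *
          (ρ (dig (minpoly F α).natDegree c j) ^ l'.unpair.1 *
            (G.comp (ρ (dig (minpoly F α).natDegree c j))) ^ l'.unpair.2)) -
          (if l = l' then 1 else 0)) := by
  classical
  set p := minpoly F α with hp
  have hmon : p.Monic := minpoly.monic hint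
  have hpos : 0 < p.natDegree := minpoly.natDegree_pos hint
  let E := p.SplittingField
  have hgal : IsGalois F E := IsGalois.of_separable_splitting_field (p := p) hsep
  obtain ⟨θ, hθ⟩ := Field.exists_primitive_element F E
  have hθint : IsIntegral F θ := IsIntegral.of_finite F θ
  have hgen : ∀ x : E, ∃ P : F[X], aeval θ P = x := by
    intro x
    have h1 : x ∈ Algebra.adjoin F {θ} := by
      rw [adjoin_sub hθint, hθ]; exact IntermediateField.mem_top
    rw [Algebra.adjoin_singleton_eq_range_aeval] at h1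
    obtain ⟨P, hP⟩ := h1
    exact ⟨P, hP⟩
  have hdvd : ∀ P : F[X], aeval θ P = 0 → minpoly F θ ∣ P := fun P hP => minpoly.dvd F θ hP
  have hsplit : (p.map (algebraMap F E)).Splits := SplittingField.splits p
  set R := (p.map (algebraMap F E)).roots.toList with hR
  have hlen : R.length = p.natDegree := by
    rw [hR, Multiset.length_toList, ← hsplit.natDegree_eq_card_roots, natDegree_map]
  have hnodup : R.Nodup := by
    rw [hR, ← Multiset.coe_nodup, Multiset.coe_toList]
    exact nodup_roots hsep.map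
  let r : ℕ → E := fun j => R.getD j 0
  have hprod : p.map (algebraMap F E) = ∏ j ∈ Finset.range p.natDegree, (X - C (r j)) := by
    rw [hsplit.eq_prod_roots_of_monic (hmon.map _)]
    conv_lhs => rw [← Multiset.coe_toList (p.map (algebraMap F E)).roots, ← hR]
    rw [Multiset.map_coe, Multiset.prod_coe, ← hlen, Finset.prod_range, ← List.prod_ofFn]
    congr 1
    apply List.ext_getElem
    · simp
    · intro k h1 h2
      simp only [List.getElem_map, List.getElem_ofFn, r]
      congr 2
      rw [List.getD_eq_getElem]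
  have hrinj : ∀ j < p.natDegree, ∀ j' < p.natDegree, r j = r j' → j = j' := by
    intro j hj j' hj' h
    simp only [r] at h
    rw [List.getD_eq_getElem _ _ (by omega), List.getD_eq_getElem _ _ (by omega)] at h
    exact (List.Nodup.getElem_inj_iff hnodup).1 h
  choose ρ hρ using fun j => hgen (r j)
  obtain ⟨G, hG⟩ := exists_generic (F := F) (M := p.natDegree) (fun j : Fin p.natDegree => r j)
    (fun a b hab => Fin.ext (hrinj a a.2 b b.2 hab)) i
  -- the inverses
  have hV : ∀ n c l j, ∃ P : F[X], ∀ (hn : n ≤ i)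
      (hc : ∀ j < n * n, ∀ j' < j, dig p.natDegree c j ≠ dig p.natDegree c j')
      (hl : l < n * n) (hj : j < n * n),
      aeval θ P = (mon n (fun j : Fin (n * n) => r (dig p.natDegree c j))
        (fun j => aeval (r (dig p.natDegree c j)) G))⁻¹ ⟨l, hl⟩ ⟨j, hj⟩ := by
    intro n c l j
    by_cases h : l < n * n ∧ j < n * n
    · obtain ⟨P, hP⟩ := hgen ((mon n (fun j : Fin (n * n) => r (dig p.natDegree c j))
        (fun j => aeval (r (dig p.natDegree c j)) G))⁻¹ ⟨l, h.1⟩ ⟨j, h.2⟩)
      exact ⟨P, fun _ _ _ _ => hP⟩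
    · exact ⟨0, fun _ _ h1 h2 => absurd ⟨h1, h2⟩ h⟩
  choose V hV using hV
  have hmpos : 0 < (minpoly F θ).natDegree := minpoly.natDegree_pos hθint
  refine ⟨minpoly F θ, (minpoly F θ).natDegree - 1, ρ, G, V, minpoly.monic hθint, by omega, ?_, ?_⟩
  · intro x
    apply hdvd
    simp only [map_sub, aeval_C, map_prod, hρ]
    have h1 := congr_arg (eval (algebraMap F E x)) hprod
    rw [eval_prod, eval_map, eval₂_at_apply] at h1
    rw [h1, sub_eq_zero]
    refine Finset.prod_congr rfl fun j _ => ?_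
    simp
  · intro n hn c hc l hl l' hl'
    apply hdvd
    have hdig : ∀ j, dig p.natDegree c j < p.natDegree := fun j => Nat.mod_lt _ hpos
    have hdet := hG n hn (fun j => ⟨dig p.natDegree c j, hdig j⟩) (by
      intro a b hab
      simp only [Fin.mk.injEq] at hab
      rcases lt_trichotomy (a : ℕ) b with h | h | h
      · exact absurd hab.symm (hc b b.2 a h)
      · exact Fin.ext h
      · exact absurd hab (hc a a.2 b h))
    have hinv := Matrix.nonsing_inv_mul (mon n (fun j : Fin (n * n) => r (dig p.natDegree c j))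
        (fun j => aeval (r (dig p.natDegree c j)) G)) (isUnit_iff_ne_zero.2 hdet)
    have h1 := congr_fun (congr_fun hinv ⟨l, hl⟩) ⟨l', hl'⟩
    rw [Matrix.mul_apply, Matrix.one_apply] at h1
    simp only [map_sub, map_sum, map_mul, map_pow, aeval_comp, hρ]
    rw [sub_eq_zero]
    have h3 : aeval θ (if l = l' then (1 : F[X]) else 0) =
        (if (⟨l, hl⟩ : Fin (n * n)) = ⟨l', hl'⟩ then (1 : E) else 0) := by
      by_cases h : l = l'
      · simp [h]
      · rw [if_neg h, if_neg (fun h' => h (by simpa using h')), map_zero]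
    rw [h3, ← h1, Finset.sum_range]
    refine Finset.sum_congr rfl fun j _ => ?_
    rw [hV n c l j hn hc hl j.2]
    rfl

end abs

theorem ev_ball {p : ℕ → ℕ → Prop} {a : ℕ} (h : ∀ x < a, ∀ᶠ N in atTop, p x N) :
    ∀ᶠ N in atTop, ∀ x < a, p x N := by
  induction a with
  | zero => exact Eventually.of_forall fun N x hx => absurd hx (Nat.not_lt_zero x)
  | succ a ih =>
    filter_upwards [ih fun x hx => h x (by omega), h a (by omega)] with N h1 h2 x hx
    rcases Nat.lt_or_ge x a with h3 | h3
    · exact h1 x h3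
    · obtain rfl : x = a := by omega
      exact h2

section code
variable {F K : Set ℕ} [Field F] [Field K] [Algebra F K]

theorem exists_cert [Infinite F] (e : ℕ → F) (i : ℕ) {α : K} (hint : IsIntegral F α)
    (hsep : (minpoly F α).Separable) :
    ∃ M m B L, aeval α (fp F L M) = 0 ∧ ChkB F e i M m B L ∧ ChkC F e i M m B L := by
  classical
  obtain ⟨g, m, ρ, G, V, hg1, hg2, hB, hC⟩ := exists_abs hint hsep i
  set p := minpoly F α with hp
  set M := p.natDegree with hM
  choose h1 hh1 using fun x => hB (e x)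
  have h2ex : ∀ n c l l', ∃ P : (F : Type)[X], ∀ (_ : n ≤ i)
      (_ : ∀ j < n * n, ∀ j' < j, dig M c j ≠ dig M c j') (_ : l < n * n) (_ : l' < n * n),
      (∑ j ∈ Finset.range (n * n), V n c l j *
          (ρ (dig M c j) ^ l'.unpair.1 * (G.comp (ρ (dig M c j))) ^ l'.unpair.2)) -
          (if l = l' then 1 else 0) = g * P := by
    intro n c l l'
    by_cases h : n ≤ i ∧ (∀ j < n * n, ∀ j' < j, dig M c j ≠ dig M c j') ∧ l < n * n ∧ l' < n * n
    · obtain ⟨P, hP⟩ := hC n h.1 c h.2.1 l h.2.2.1 l' h.2.2.2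
      exact ⟨P, fun _ _ _ _ => hP⟩
    · exact ⟨0, fun a b c d => absurd ⟨a, b, c, d⟩ h⟩
  choose h2 hh2 using h2ex
  -- the family
  let P : ℕ → (F : Type)[X] := fun q =>
    match q.unpair.1 with
    | 0 => p
    | 1 => g - X ^ (m + 1)
    | 2 => ρ q.unpair.2
    | 3 => G
    | 4 => h1 q.unpair.2
    | 5 => V q.unpair.2.unpair.1.unpair.1 q.unpair.2.unpair.1.unpair.2
        q.unpair.2.unpair.2.unpair.1 q.unpair.2.unpair.2.unpair.2
    | _ => h2 q.unpair.2.unpair.1.unpair.1 q.unpair.2.unpair.1.unpair.2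
        q.unpair.2.unpair.2.unpair.1 q.unpair.2.unpair.2.unpair.2
  have P0 : P (Nat.pair 0 0) = p := by simp only [P, Nat.unpair_pair]
  have P1 : P (Nat.pair 1 0) = g - X ^ (m + 1) := by simp only [P, Nat.unpair_pair]
  have P2 : ∀ j, P (Nat.pair 2 j) = ρ j := fun j => by simp only [P, Nat.unpair_pair]
  have P3 : P (Nat.pair 3 0) = G := by simp only [P, Nat.unpair_pair]
  have P4 : ∀ x, P (Nat.pair 4 x) = h1 x := fun j => by simp only [P, Nat.unpair_pair]
  have P5 : ∀ n c l j, P (Nat.pair 5 (Nat.pair (Nat.pair n c) (Nat.pair l j))) = V n c l j :=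
    fun n c l j => by simp only [P, Nat.unpair_pair]
  have P6 : ∀ n c l j, P (Nat.pair 6 (Nat.pair (Nat.pair n c) (Nat.pair l j))) = h2 n c l j :=
    fun n c l j => by simp only [P, Nat.unpair_pair]
  have hLex := fun N => exists_getc (fun z => (((P z.unpair.1).coeff z.unpair.2 : F) : ℕ)) N
  choose Lf hLf using hLex
  have evp : ∀ q B, (P q).natDegree < B → ∀ᶠ N in atTop, pol F (Lf N) B q = P q := by
    intro q B hq
    filter_upwards [eventually_gt_atTop (Nat.pair q B)] with N hN
    refine pol_eq F hq fun k hk => ?_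
    rw [hLf N _ ((Nat.pair_lt_pair_right q hk).trans hN), Nat.unpair_pair]
  -- all needed indices are below Q
  have hQ : ∀ᶠ Q in atTop, (∀ j < M, Nat.pair 2 j < Q) ∧ Nat.pair 3 0 < Q ∧
      (∀ x < M + 1, Nat.pair 4 x < Q) ∧
      (∀ n < i + 1, ∀ c < M ^ (n * n), ∀ l < n * n, ∀ j < n * n,
        Nat.pair 5 (Nat.pair (Nat.pair n c) (Nat.pair l j)) < Q) ∧
      (∀ n < i + 1, ∀ c < M ^ (n * n), ∀ l < n * n, ∀ j < n * n,
        Nat.pair 6 (Nat.pair (Nat.pair n c) (Nat.pair l j)) < Q) := by
    refine (ev_ball fun j _ => eventually_gt_atTop _).and ((eventually_gt_atTop _).and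
      ((ev_ball fun j _ => eventually_gt_atTop _).and (Eventually.and ?_ ?_)))
    · exact ev_ball fun n _ => ev_ball fun c _ => ev_ball fun l _ => ev_ball fun j _ =>
        eventually_gt_atTop _
    · exact ev_ball fun n _ => ev_ball fun c _ => ev_ball fun l _ => ev_ball fun j _ =>
        eventually_gt_atTop _
  obtain ⟨Q, hQ2, hQ3, hQ4, hQ5, hQ6⟩ := hQ.exists
  have hBe : ∀ᶠ B in atTop, ∀ q < Q, (P q).natDegree < B :=
    ev_ball fun q _ => eventually_gt_atTop _
  obtain ⟨B, hBd⟩ := hBe.exists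
  have hNe : ∀ᶠ N in atTop, (∀ q < Q, pol F (Lf N) B q = P q) ∧
      pol F (Lf N) (M + 1) (Nat.pair 0 0) = P (Nat.pair 0 0) ∧
      pol F (Lf N) (m + 1) (Nat.pair 1 0) = P (Nat.pair 1 0) := by
    refine (ev_ball fun q hq => evp q B (hBd q hq)).and ((evp _ _ ?_).and (evp _ _ ?_))
    · rw [P0]; omega
    · rw [P1]
      rcases eq_or_ne (g - X ^ (m + 1)) 0 with h | h
      · rw [h, natDegree_zero]; omega
      · rw [natDegree_lt_iff_degree_lt h]
        have h3 : g.degree = (m + 1 : ℕ) := by rw [degree_eq_natDegree hg1.ne_zero, hg2]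
        refine lt_of_lt_of_eq (degree_sub_lt_left ?_ hg1.ne_zero ?_) h3
        · rw [h3, degree_X_pow]
        · rw [hg1.leadingCoeff, leadingCoeff_X_pow]
  obtain ⟨N, hN, hN0, hN1⟩ := hNe.exists
  set L := Lf N
  have ef : fp F L M = p := by unfold fp; rw [hN0, P0]
  have eg : gp F L m = g := by unfold gp; rw [hN1, P1]; ring
  have er : ∀ j < M, rp F L B j = ρ j := fun j hj => by
    unfold rp; rw [hN _ (hQ2 j hj), P2]
  have eG : Gp F L B = G := by unfold Gp; rw [hN _ hQ3, P3]
  have hpos : 0 < M := minpoly.natDegree_pos hint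
  have hdig : ∀ c j, dig M c j < M := fun c j => Nat.mod_lt _ hpos
  refine ⟨M, m, B, L, ?_, ?_, ?_⟩
  · rw [ef]; exact minpoly.aeval F α
  · intro x hx τ _
    have : PB F (e x) M m B L x = 0 := by
      unfold PB
      rw [ef, eg, hN _ (hQ4 x hx), P4]
      have h3 : ∏ j ∈ Finset.range M, (C (e x) - rp F L B j) =
          ∏ j ∈ Finset.range M, (C (e x) - ρ j) :=
        Finset.prod_congr rfl fun j hj => by rw [er j (Finset.mem_range.1 hj)]
      rw [h3, hh1 x, sub_self]
    rw [this, eval_zero]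
  · intro n hn c hc hinj l hl l' hl' τ _
    have : PC F M m B L n c l l' = 0 := by
      unfold PC
      rw [eG, eg, hN _ (hQ6 n hn c hc l hl l' hl'), P6]
      have h3 : ∑ j ∈ Finset.range (n * n),
          pol F L B (Nat.pair 5 (Nat.pair (Nat.pair n c) (Nat.pair l j))) *
          (rp F L B (dig M c j) ^ l'.unpair.1 *
            (G.comp (rp F L B (dig M c j))) ^ l'.unpair.2) =
          ∑ j ∈ Finset.range (n * n), V n c l j *
          (ρ (dig M c j) ^ l'.unpair.1 * (G.comp (ρ (dig M c j))) ^ l'.unpair.2) :=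
        Finset.sum_congr rfl fun j hj => by
          rw [hN _ (hQ5 n hn c hc l hl j (Finset.mem_range.1 hj)), P5, er _ (hdig c j)]
      rw [h3, hh2 n c l l' (by omega) hinj hl hl', sub_self]
    rw [this, eval_zero]

end code

end Pool.Agent.R457.CohT
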