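import Pool.Agent.R457.CohT.B

/-! The check is computable. -/

namespace Pool.Agent.R457.CohT

open Polynomial Pool.Agent.R626.Coh

section nat
variable {α : Type*} [Primcodable α]

theorem cadd {f g : α → ℕ} (hf : Computable f) (hg : Computable g) :
    Computable fun a => f a + g a := Primrec.nat_add.to_comp.comp hf hg

theorem cmul {f g : α → ℕ} (hf : Computable f) (hg : Computable g) :
    Computable fun a => f a * g a := Primrec.nat_mul.to_comp.comp hf hg

theorem cpair {f g : α → ℕ} (hf : Computable f) (hg : Computable g) :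
    Computable fun a => Nat.pair (f a) (g a) := Primrec₂.natPair.to_comp.comp hf hg

theorem cu1 {f : α → ℕ} (hf : Computable f) : Computable fun a => (f a).unpair.1 :=
  Computable.fst.comp (Primrec.unpair.to_comp.comp hf)

theorem cu2 {f : α → ℕ} (hf : Computable f) : Computable fun a => (f a).unpair.2 :=
  Computable.snd.comp (Primrec.unpair.to_comp.comp hf)

theorem cpow {f g : α → ℕ} (hf : Computable f) (hg : Computable g) :
    Computable fun a => f a ^ g a := by
  have h : Computable fun a => (Nat.rec 1 (fun _ v => v * f a) (g a) : ℕ) := by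
    refine Computable.nat_rec (h := fun a (p : ℕ × ℕ) => p.2 * f a) hg (Computable.const 1) ?_
    exact cmul (Computable.snd.comp Computable.snd) (hf.comp Computable.fst)
  refine h.of_eq fun a => ?_
  generalize g a = n
  induction n with
  | zero => rfl
  | succ n ih => rw [pow_succ, ← ih]

theorem cdig {M c j : α → ℕ} (hM : Computable M) (hc : Computable c) (hj : Computable j) :
    Computable fun a => dig (M a) (c a) (j a) :=
  Primrec.nat_mod.to_comp.comp (Primrec.nat_div.to_comp.comp hc (cpow hM hj)) hM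

theorem cgetc {L k : α → ℕ} (hL : Computable L) (hk : Computable k) :
    Computable fun a => getc (L a) (k a) :=
  (Primrec.list_getD 0).to_comp.comp ((Primrec.ofNat (List ℕ)).to_comp.comp hL) hk

theorem cTT {i M m B : α → ℕ} (hi : Computable i) (hM : Computable M) (hm : Computable m)
    (hB : Computable B) : Computable fun a => TT (i a) (M a) (m a) (B a) :=
  cadd (cadd (cadd (cadd (cadd (cmul hM hB) hB) (cmul hi hB)) (cmul hi (cmul hB hB))) hm)
    (Computable.const 2)

theorem cp_imp {P Q : α → Prop} (hP : ComputablePred P) (hQ : ComputablePred Q) :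
    ComputablePred fun a => P a → Q a :=
  (cp_or (cp_not hP) hQ).of_eq fun a => by
    constructor
    · rintro (h | h) h2
      · exact absurd h2 h
      · exact h
    · intro h
      by_cases h2 : P a
      · exact Or.inr (h h2)
      · exact Or.inl h2

theorem cp_natEq {f g : α → ℕ} (hf : Computable f) (hg : Computable g) :
    ComputablePred fun a => f a = g a := by
  refine ⟨fun a => inferInstance, ?_⟩
  have h1 : Primrec₂ fun u v : ℕ => decide (u = v) := Primrec.eq.decide
  exact (h1.to_comp.comp hf hg).of_eq fun a => by simp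

end nat

section field
variable {α : Type*} [Primcodable α] {F : Set ℕ} [Field F] [ComputableField F]

omit [Field F] [ComputableField F] in
theorem CK_of_eq {f g : α → F} (hf : CK f) (h : ∀ a, f a = g a) : CK g := by
  have : f = g := funext h
  rwa [← this]

theorem CKneg {f : α → F} (hf : CK f) : CK fun a => - f a := by
  have h := CK.mul (CK.const (-1 : F)) hf
  refine CK_of_eq h fun a => ?_
  rw [neg_one_mul]

theorem CKsub {f g : α → F} (hf : CK f) (hg : CK g) : CK fun a => f a - g a := by
  have h := CK.add hf (CKneg hg)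
  refine CK_of_eq h fun a => ?_
  rw [sub_eq_add_neg]

theorem CKprod {g : α → ℕ → F} (hg : CK fun p : α × ℕ => g p.1 p.2) {n : α → ℕ}
    (hn : Computable n) : CK fun a => ∏ i ∈ Finset.range (n a), g a i := by
  obtain ⟨h, h1, h2⟩ := ComputableField.mul (D := F)
  have h3 : Computable fun a => (Nat.rec ((1 : F) : ℕ) (fun i v => h v (g a i)) (n a) : ℕ) := by
    refine Computable.nat_rec (h := fun a (p : ℕ × ℕ) => h p.2 (g a p.1)) hn
      (Computable.const _) ?_
    refine h1.comp (Computable.snd.comp Computable.snd) ?_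
    exact (show Computable (fun p : α × ℕ => (g p.1 p.2 : ℕ)) from hg).comp
      (Computable.pair Computable.fst (Computable.fst.comp Computable.snd))
  refine h3.of_eq fun a => ?_
  change (Nat.rec ((1 : F) : ℕ) (fun i v => h v (g a i)) (n a) : ℕ) =
    ((∏ i ∈ Finset.range (n a), g a i : F) : ℕ)
  generalize n a = m
  induction m with
  | zero => simp
  | succ m ih =>
    rw [Finset.prod_range_succ, h2, ← ih]

omit [Field F] [ComputableField F] in
theorem CKite {f g : α → ℕ} (hf : Computable f) (hg : Computable g) (x y : F) :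
    CK fun a => if f a = g a then x else y := by
  classical
  obtain ⟨h1, h2⟩ := cp_natEq hf hg
  have h3 : Computable fun a => cond (decide (f a = g a)) (x : ℕ) (y : ℕ) :=
    Computable.cond (h2.of_eq fun n => by simp) (Computable.const _) (Computable.const _)
  refine h3.of_eq fun a => ?_
  by_cases h : f a = g a <;> simp [h]

theorem CKpol {b : α → F} (hb : CK b) {L B q : α → ℕ} (hL : Computable L) (hB : Computable B)
    (hq : Computable q) : CK fun a => eval (b a) (pol F (L a) (B a) (q a)) := by
  have h : CK fun a => ∑ k ∈ Finset.range (B a),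
      toK F (getc (L a) (Nat.pair (q a) k)) * b a ^ k := by
    refine CK.sum (g := fun a k => toK F (getc (L a) (Nat.pair (q a) k)) * b a ^ k) ?_ hB
    refine CK.mul (CK.ofCode (cgetc (hL.comp Computable.fst)
      (cpair (hq.comp Computable.fst) Computable.snd))) (CK.pow (CK.comp hb Computable.fst)
      Computable.snd)
  refine CK_of_eq h fun a => ?_
  unfold pol
  rw [eval_finsetSum]
  simp only [eval_mul, eval_C, eval_pow, eval_X]

theorem CKgp {b : α → F} (hb : CK b) {L m : α → ℕ} (hL : Computable L) (hm : Computable m) :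
    CK fun a => eval (b a) (gp F (L a) (m a)) := by
  have h := CK.add (CK.pow hb (cadd hm (Computable.const 1)))
    (CKpol hb hL (cadd hm (Computable.const 1)) (Computable.const (Nat.pair 1 0)))
  refine CK_of_eq h fun a => ?_
  unfold gp
  rw [eval_add, eval_pow, eval_X]

theorem CKPB {e : ℕ → F} (he : CK e) {M m B L x τ : α → ℕ} (hM : Computable M)
    (hm : Computable m) (hB : Computable B) (hL : Computable L) (hx : Computable x)
    (hτ : Computable τ) :
    CK fun a => eval (e (τ a)) (PB F (e (x a)) (M a) (m a) (B a) (L a) (x a)) := by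
  have hex : CK fun a => e (x a) := CK.comp he hx
  have heτ : CK fun a => e (τ a) := CK.comp he hτ
  have h := CKsub (CKsub (CKpol hex hL (cadd hM (Computable.const 1))
      (Computable.const (Nat.pair 0 0)))
    (CKprod (g := fun a j => e (x a) - eval (e (τ a)) (pol F (L a) (B a) (Nat.pair 2 j)))
      (CKsub (CK.comp hex Computable.fst) (CKpol (CK.comp heτ Computable.fst)
        (hL.comp Computable.fst) (hB.comp Computable.fst)
        (cpair (Computable.const 2) Computable.snd))) hM))
    (CK.mul (CKgp heτ hL hm) (CKpol heτ hL hB (cpair (Computable.const 4) hx)))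
  refine CK_of_eq h fun a => ?_
  unfold PB fp rp
  simp only [eval_sub, eval_mul, eval_C, eval_prod]

theorem CKPC {e : ℕ → F} (he : CK e) {M m B L n c l l' τ : α → ℕ} (hM : Computable M)
    (hm : Computable m) (hB : Computable B) (hL : Computable L) (hn : Computable n)
    (hc : Computable c) (hl : Computable l) (hl' : Computable l') (hτ : Computable τ) :
    CK fun a => eval (e (τ a)) (PC F (M a) (m a) (B a) (L a) (n a) (c a) (l a) (l' a)) := by
  have heτ : CK fun a => e (τ a) := CK.comp he hτ
  have f1 : ∀ {f : α → ℕ}, Computable f → Computable fun p : α × ℕ => f p.1 :=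
    fun hf => hf.comp Computable.fst
  have hr : CK fun p : α × ℕ => eval (e (τ p.1)) (pol F (L p.1) (B p.1)
      (Nat.pair 2 (dig (M p.1) (c p.1) p.2))) :=
    CKpol (CK.comp heτ Computable.fst) (f1 hL) (f1 hB) (cpair (Computable.const 2)
      (cdig (f1 hM) (f1 hc) Computable.snd))
  have h := CKsub (CKsub (CK.sum (g := fun a j => eval (e (τ a)) (pol F (L a) (B a)
        (Nat.pair 5 (Nat.pair (Nat.pair (n a) (c a)) (Nat.pair (l a) j)))) *
        (eval (e (τ a)) (pol F (L a) (B a) (Nat.pair 2 (dig (M a) (c a) j))) ^ (l' a).unpair.1 *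
        (eval (eval (e (τ a)) (pol F (L a) (B a) (Nat.pair 2 (dig (M a) (c a) j))))
          (pol F (L a) (B a) (Nat.pair 3 0))) ^ (l' a).unpair.2))
      (CK.mul (CKpol (CK.comp heτ Computable.fst) (f1 hL) (f1 hB)
        (cpair (Computable.const 5) (cpair (cpair (f1 hn) (f1 hc)) (cpair (f1 hl)
          Computable.snd))))
        (CK.mul (CK.pow hr (f1 (cu1 hl')))
          (CK.pow (CKpol hr (f1 hL) (f1 hB) (Computable.const _)) (f1 (cu2 hl')))))
      (cmul hn hn)) (CKite hl hl' 1 0))
    (CK.mul (CKgp heτ hL hm) (CKpol heτ hL hB (cpair (Computable.const 6)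
      (cpair (cpair hn hc) (cpair hl hl')))))
  refine CK_of_eq h fun a => ?_
  unfold PC rp Gp
  simp only [eval_sub, eval_mul, eval_finsetSum, eval_pow, eval_comp]
  have h3 : eval (e (τ a)) (if l a = l' a then (1 : (F : Type)[X]) else 0) =
      if l a = l' a then 1 else 0 := by
    split_ifs <;> simp
  rw [h3]

theorem cChkB {e : ℕ → F} (he : CK e) {i M m B L : α → ℕ} (hi : Computable i)
    (hM : Computable M) (hm : Computable m) (hB : Computable B) (hL : Computable L) :
    ComputablePred fun a => ChkB F e (i a) (M a) (m a) (B a) (L a) := by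
  unfold ChkB
  have f1 : ∀ {f : α → ℕ}, Computable f → Computable fun p : α × ℕ => f p.1 :=
    fun hf => hf.comp Computable.fst
  have f2 : ∀ {f : α → ℕ}, Computable f → Computable fun p : (α × ℕ) × ℕ => f p.1.1 :=
    fun hf => hf.comp (Computable.fst.comp Computable.fst)
  refine cp_ball (P := fun a x => ∀ τ < TT (i a) (M a) (m a) (B a),
    eval (e τ) (PB F (e x) (M a) (m a) (B a) (L a) x) = 0) ?_ (cadd hM (Computable.const 1))
  refine cp_ball (P := fun (p : α × ℕ) τ =>
    eval (e τ) (PB F (e p.2) (M p.1) (m p.1) (B p.1) (L p.1) p.2) = 0) ?_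
    (cTT (f1 hi) (f1 hM) (f1 hm) (f1 hB))
  exact CK.eq (CKPB he (f2 hM) (f2 hm) (f2 hB) (f2 hL) (Computable.snd.comp Computable.fst)
    Computable.snd) (CK.const 0)

theorem cChkC {e : ℕ → F} (he : CK e) {i M m B L : α → ℕ} (hi : Computable i)
    (hM : Computable M) (hm : Computable m) (hB : Computable B) (hL : Computable L) :
    ComputablePred fun a => ChkC F e (i a) (M a) (m a) (B a) (L a) := by
  unfold ChkC
  -- one variable
  refine cp_ball (P := fun a n => ∀ c < M a ^ (n * n),
    (∀ j < n * n, ∀ j' < j, dig (M a) c j ≠ dig (M a) c j') →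
    ∀ l < n * n, ∀ l' < n * n, ∀ τ < TT (i a) (M a) (m a) (B a),
      eval (e τ) (PC F (M a) (m a) (B a) (L a) n c l l') = 0) ?_ (cadd hi (Computable.const 1))
  refine cp_ball (P := fun (p : α × ℕ) c =>
    (∀ j < p.2 * p.2, ∀ j' < j, dig (M p.1) c j ≠ dig (M p.1) c j') →
    ∀ l < p.2 * p.2, ∀ l' < p.2 * p.2, ∀ τ < TT (i p.1) (M p.1) (m p.1) (B p.1),
      eval (e τ) (PC F (M p.1) (m p.1) (B p.1) (L p.1) p.2 c l l') = 0) ?_
    (cpow (hM.comp Computable.fst) (cmul Computable.snd Computable.snd))
  have n2 : Computable fun p : (α × ℕ) × ℕ => p.1.2 := Computable.snd.comp Computable.fst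
  have k2 : ∀ {f : α → ℕ}, Computable f → Computable fun p : (α × ℕ) × ℕ => f p.1.1 :=
    fun hf => hf.comp (Computable.fst.comp Computable.fst)
  refine cp_imp ?_ ?_
  · refine cp_ball (P := fun (p : (α × ℕ) × ℕ) j => ∀ j' < j,
      dig (M p.1.1) p.2 j ≠ dig (M p.1.1) p.2 j') ?_ (cmul n2 n2)
    refine cp_ball (P := fun (p : ((α × ℕ) × ℕ) × ℕ) j' =>
      dig (M p.1.1.1) p.1.2 p.2 ≠ dig (M p.1.1.1) p.1.2 j') ?_ Computable.snd
    have hc4 : Computable fun p : (((α × ℕ) × ℕ) × ℕ) × ℕ => p.1.1.2 :=
      Computable.snd.comp (Computable.fst.comp Computable.fst)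
    have hM4 : Computable fun p : (((α × ℕ) × ℕ) × ℕ) × ℕ => M p.1.1.1.1 :=
      (k2 hM).comp (Computable.fst.comp Computable.fst)
    exact cp_not (cp_natEq (cdig hM4 hc4 (Computable.snd.comp Computable.fst))
      (cdig hM4 hc4 Computable.snd))
  · refine cp_ball (P := fun (p : (α × ℕ) × ℕ) l => ∀ l' < p.1.2 * p.1.2,
      ∀ τ < TT (i p.1.1) (M p.1.1) (m p.1.1) (B p.1.1),
      eval (e τ) (PC F (M p.1.1) (m p.1.1) (B p.1.1) (L p.1.1) p.1.2 p.2 l l') = 0) ?_
      (cmul n2 n2)
    refine cp_ball (P := fun (p : ((α × ℕ) × ℕ) × ℕ) l' =>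
      ∀ τ < TT (i p.1.1.1) (M p.1.1.1) (m p.1.1.1) (B p.1.1.1),
      eval (e τ) (PC F (M p.1.1.1) (m p.1.1.1) (B p.1.1.1) (L p.1.1.1) p.1.1.2 p.1.2 p.2 l') = 0)
      ?_ (cmul (n2.comp Computable.fst) (n2.comp Computable.fst))
    have k4 : ∀ {f : α → ℕ}, Computable f →
        Computable fun p : (((α × ℕ) × ℕ) × ℕ) × ℕ => f p.1.1.1.1 :=
      fun hf => (k2 hf).comp (Computable.fst.comp Computable.fst)
    refine cp_ball (P := fun (p : (((α × ℕ) × ℕ) × ℕ) × ℕ) τ =>
      eval (e τ) (PC F (M p.1.1.1.1) (m p.1.1.1.1) (B p.1.1.1.1) (L p.1.1.1.1) p.1.1.1.2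
        p.1.1.2 p.1.2 p.2) = 0) ?_ (cTT (k4 hi) (k4 hM) (k4 hm) (k4 hB))
    have k5 : ∀ {f : α → ℕ}, Computable f →
        Computable fun p : ((((α × ℕ) × ℕ) × ℕ) × ℕ) × ℕ => f p.1.1.1.1.1 :=
      fun hf => (k4 hf).comp Computable.fst
    refine CK.eq (CKPC he (k5 hM) (k5 hm) (k5 hB) (k5 hL) ?_ ?_ ?_ ?_ Computable.snd) (CK.const 0)
    · exact Computable.snd.comp (Computable.fst.comp (Computable.fst.comp
        (Computable.fst.comp Computable.fst)))
    · exact Computable.snd.comp (Computable.fst.comp (Computable.fst.comp Computable.fst))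
    · exact Computable.snd.comp (Computable.fst.comp Computable.fst)
    · exact Computable.snd.comp Computable.fst

end field

section enum
variable (F : Set ℕ) [Field F] [ComputableField F]

/-- a computable injective sequence of elements of an infinite computable field -/
theorem exists_enum [Infinite F] : ∃ e : ℕ → F, CK e ∧ Function.Injective e := by
  classical
  have hinf : F.Infinite := Set.infinite_coe_iff.1 inferInstance
  obtain ⟨h1, h2⟩ := ComputableField.dom (D := F)
  have hP : ComputablePred fun p : ℕ × ℕ => p.1 < p.2 ∧ p.2 ∈ F := by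
    refine cp_and ?_ ?_
    · exact ⟨fun p => inferInstance, (Primrec.nat_lt.decide.to_comp).of_eq fun p => by simp⟩
    · exact cp_comp (ComputableField.dom (D := F)) Computable.snd
  obtain ⟨f, hf1, hf2⟩ := search (P := fun a b => a < b ∧ b ∈ F) hP fun a => by
    obtain ⟨b, hb, hab⟩ := hinf.exists_gt a
    exact ⟨b, hab, hb⟩
  let E : ℕ → ℕ := fun n => Nat.rec (f 0) (fun _ v => f v) n
  have hE : Computable E := by
    refine Computable.nat_rec (h := fun _ (p : ℕ × ℕ) => f p.2) Computable.id
      (Computable.const _) ?_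
    exact hf1.comp (Computable.snd.comp Computable.snd)
  have hmem : ∀ n, E n ∈ F := by
    intro n
    cases n with
    | zero => exact (hf2 0).1.2
    | succ n => exact (hf2 (E n)).1.2
  have hmono : StrictMono E := strictMono_nat_of_lt_succ fun n => (hf2 (E n)).1.1
  refine ⟨fun n => ⟨E n, hmem n⟩, hE, fun a b hab => hmono.injective ?_⟩
  exact congr_arg Subtype.val hab

end enum

end Pool.Agent.R457.CohT
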