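import Pool.Agent.R457.CohT.A
import Pool.Agent.R626.CohA

/-! Sparse polynomials and finite fields. -/

namespace Pool.Agent.R457.CohT

open Polynomial Pool.Agent.R626.Coh IntermediateField

section sparse
variable {F K : Type*} [Field F] [Field K] [Algebra F K]

theorem sparse {α : K} {n k : ℕ} (hnk : n ≤ k)
    (h : ∀ P : F[X], P.natDegree < k * k → aeval α P = 0 → P = 0)
    (q : Fin (n * n) → F)
    (hq : ∑ l, algebraMap F K (q l) *
      (α ^ (l : ℕ).unpair.1 * (α ^ k) ^ (l : ℕ).unpair.2) = 0) : q = 0 := by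
  let e : Fin (n * n) → ℕ := fun l => (l : ℕ).unpair.1 + k * (l : ℕ).unpair.2
  have he : Function.Injective e := by
    intro l l' hll
    have h1 := unpair_lt l.2
    have h2 := unpair_lt l'.2
    have h3 : (l : ℕ).unpair.1 + k * (l : ℕ).unpair.2 =
      (l' : ℕ).unpair.1 + k * (l' : ℕ).unpair.2 := hll
    have h4 : (l : ℕ).unpair.1 = (l' : ℕ).unpair.1 := by
      have := congr_arg (· % k) h3
      simpa [Nat.add_mul_mod_self_left, Nat.mod_eq_of_lt (h1.1.trans_le hnk),
        Nat.mod_eq_of_lt (h2.1.trans_le hnk)] using this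
    have h5 : (l : ℕ).unpair.2 = (l' : ℕ).unpair.2 := by
      rw [h4] at h3
      have hn : 0 < k := lt_of_lt_of_le (lt_of_le_of_lt (Nat.zero_le _) h1.1) hnk
      exact Nat.eq_of_mul_eq_mul_left hn (by omega)
    apply Fin.ext
    rw [← Nat.pair_unpair (l : ℕ), h4, h5, Nat.pair_unpair]
  have hlt : ∀ l, e l < k * k := by
    intro l
    have h1 := unpair_lt l.2
    have : k * (l : ℕ).unpair.2 + k ≤ k * k := by
      have := Nat.mul_le_mul_left k (Nat.succ_le_of_lt (h1.2.trans_le hnk))
      rw [Nat.mul_succ] at this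
      exact this
    have h2 := h1.1.trans_le hnk
    change (l : ℕ).unpair.1 + k * (l : ℕ).unpair.2 < k * k
    omega
  rcases Nat.eq_zero_or_pos k with hk | hk
  · funext l
    have := hlt l
    rw [hk] at this
    omega
  let P : F[X] := ∑ l, C (q l) * X ^ e l
  have hP : P = 0 := by
    refine h P ?_ ?_
    · have hkk : 0 < k * k := Nat.mul_pos hk hk
      refine lt_of_le_of_lt (natDegree_sum_le_of_forall_le (n := k * k - 1) _ _ fun l _ => ?_)
        (by omega)
      refine (natDegree_C_mul_X_pow_le _ _).trans ?_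
      have := hlt l
      omega
    · rw [← hq]
      simp only [P, map_sum, map_mul, map_pow, aeval_C, aeval_X]
      refine Finset.sum_congr rfl fun l _ => ?_
      rw [pow_add, pow_mul]
  funext l
  have h1 := congr_arg (fun Q : F[X] => Q.coeff (e l)) hP
  simp only [P, finsetSum_coeff, coeff_C_mul, coeff_X_pow, coeff_zero] at h1
  rw [Finset.sum_eq_single l] at h1
  · simpa using h1
  · intro l' _ hl'
    rw [if_neg (fun h => hl' (he h).symm), mul_zero]
  · intro h
    exact absurd (Finset.mem_univ _) h

theorem eq_zero_of_natDegree_lt {α : K} {P : F[X]}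
    (h : P.natDegree < (minpoly F α).natDegree) (hP : aeval α P = 0) : P = 0 := by
  by_contra h0
  have h1 := minpoly.degree_le_of_ne_zero F α h0 hP
  have h2 := natDegree_le_natDegree h1
  omega

theorem finite_pow [Fintype F] {α : K} (hint : IsIntegral F α) (d : ℕ) :
    α ^ Fintype.card F ^ d = α ↔ (minpoly F α).natDegree ∣ d := by
  have hfd : FiniteDimensional F F⟮α⟯ := adjoin.finiteDimensional hint
  have hfin : Finite F⟮α⟯ := Module.finite_of_finite F
  rw [← adjoin.finrank hint, ← FiniteField.orderOf_frobeniusAlgHom F F⟮α⟯,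
    orderOf_dvd_iff_pow_eq_one]
  have key : ((FiniteField.frobeniusAlgHom F F⟮α⟯) ^ d) (AdjoinSimple.gen F α) =
      AdjoinSimple.gen F α ^ Fintype.card F ^ d := by
    rw [AlgHom.coe_pow, FiniteField.coe_frobeniusAlgHom, pow_iterate]
  constructor
  · intro h
    refine (adjoin.powerBasis hint).algHom_ext ?_
    rw [adjoin.powerBasis_gen, key, AlgHom.one_apply]
    apply Subtype.ext
    rw [SubmonoidClass.coe_pow, AdjoinSimple.coe_gen]
    exact h
  · intro h
    rw [h, AlgHom.one_apply] at key
    have := congr_arg Subtype.val key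
    rw [SubmonoidClass.coe_pow, AdjoinSimple.coe_gen] at this
    exact this.symm

end sparse

end Pool.Agent.R457.CohT
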