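import Pool.Agent.R457.CohT.C
import Pool.Agent.R457.CohT.D
import Pool.Agent.R457.CohT.E

/-! Cohesive powers: partial search, degrees, algebraic independence. -/

namespace Pool.Agent.R457.CohT

open Polynomial Pool.Agent.R626.Coh Filter

theorem psearch {φ : ℕ →. ℕ} (hφ : Partrec φ) {R : ℕ × ℕ → ℕ → Prop}
    (hR : ComputablePred fun p : (ℕ × ℕ) × ℕ => R p.1 p.2) :
    ∃ χ : ℕ →. ℕ, Partrec χ ∧ ∀ i z, z ∈ χ i ↔
      ∃ a ∈ φ i, ∃ w, z = Nat.pair a w ∧ R (i, a) w ∧ ∀ m < w, ¬ R (i, a) m := by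
  classical
  obtain ⟨h1, h2⟩ := hR
  have h3 : Computable₂ fun (a : ℕ × ℕ) n => decide (R a n) := h2.of_eq fun p => by simp
  have h4 : Partrec fun a : ℕ × ℕ => Nat.rfind fun n => Part.some (decide (R a n)) :=
    Partrec.rfind (p := fun a n => Part.some (decide (R a n))) h3.partrec₂
  refine ⟨fun i => (φ i).bind fun a => (Nat.rfind fun n =>
    Part.some (decide (R (i, a) n))).map fun w => Nat.pair a w, ?_, ?_⟩
  · refine hφ.bind (Partrec.map h4 ?_)
    exact cpair (Computable.snd.comp Computable.fst) Computable.snd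
  · intro i z
    rw [Part.mem_bind_iff]
    constructor
    · rintro ⟨a, ha, hz⟩
      rw [Part.mem_map_iff] at hz
      obtain ⟨w, hw, rfl⟩ := hz
      have hw' := Nat.mem_rfind.1 hw
      refine ⟨a, ha, w, rfl, ?_, fun m hm => ?_⟩
      · simpa using hw'.1
      · simpa using hw'.2 hm
    · rintro ⟨a, ha, w, rfl, hw, hm⟩
      refine ⟨a, ha, ?_⟩
      rw [Part.mem_map_iff]
      refine ⟨w, Nat.mem_rfind.2 ⟨?_, fun {m} h => ?_⟩, rfl⟩
      · exact Part.mem_some_iff.2 (by simpa using hw)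
      · exact Part.mem_some_iff.2 (by simpa using hm m h)

/-- successful search at a good index -/
theorem psearch_mem {χ φ : ℕ →. ℕ} {R : ℕ × ℕ → ℕ → Prop}
    (h : ∀ i z, z ∈ χ i ↔ ∃ a ∈ φ i, ∃ w, z = Nat.pair a w ∧ R (i, a) w ∧ ∀ m < w, ¬ R (i, a) m)
    {i a : ℕ} (ha : a ∈ φ i) (hw : ∃ w, R (i, a) w) :
    ∃ w, Nat.pair a w ∈ χ i ∧ R (i, a) w ∧ ∀ m < w, ¬ R (i, a) m := by
  classical
  refine ⟨Nat.find hw, (h i _).2 ⟨a, ha, _, rfl, Nat.find_spec hw, fun m hm => Nat.find_min hw hm⟩,
    Nat.find_spec hw, fun m hm => Nat.find_min hw hm⟩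

section
variable {C : Set ℕ} {F K : Set ℕ} [Field F] [Field K] [Algebra F K]
  [ComputableField F] [ComputableField K] [ComputableExtension F K]

theorem neBot (hC : Cohesive C) : (ae C).NeBot := by
  unfold ae
  rw [← Filter.frequently_mem_iff_neBot, Nat.cofinite_eq_atTop, frequently_atTop]
  intro a
  obtain ⟨b, hb, hab⟩ := hC.1.exists_gt a
  exact ⟨b, hab.le, hb⟩

theorem nontriv (hC : Cohesive C) (A : Set ℕ) [Field A] [ComputableField A] :
    Nontrivial (Power C A) := by
  refine ⟨⟨0, 1, fun h => ?_⟩⟩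
  have h1 : (0 : Germ (ae C) A) = 1 := congr_arg Subtype.val h
  have h2 : ∀ᶠ _ in ae C, (0 : A) = 1 := Germ.coe_eq.1 h1
  have := neBot hC
  obtain ⟨i, hi⟩ := h2.exists
  exact zero_ne_one hi

/-- the class of a function -/
noncomputable def cls (C : Set ℕ) (A : Set ℕ) [Field A] : (ℕ → A) →+* Germ (ae C) A :=
  Germ.coeRingHom (ae C)

theorem cls_eq {A : Set ℕ} [Field A] {f g : ℕ → A} :
    cls C A f = cls C A g ↔ ∀ᶠ i in ae C, f i = g i := Germ.coe_eq

/-- the inclusion into the germs -/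
def subp (C A : Set ℕ) [Field A] [ComputableField A] : Power C A →+* Germ (ae C) A :=
  (CohesivePower C A).subtype

theorem cls_map (c : Power C F) {f : ℕ → F} (hf : cls C F f = c.1) :
    (powerMap C F K c).1 = cls C K fun i => algebraMap F K (f i) := by
  change Germ.map (algebraMap F K) c.1 = _
  rw [← hf]
  rfl

theorem unbounded (hC : Cohesive C) {α : ℕ → K} {φ : ℕ →. ℕ} (hφ : Partrec φ)
    (hα : ∀ᶠ i in ae C, (α i : ℕ) ∈ φ i) {x : Power C K} (hx : x.1 = cls C K α)
    (htr : ∀ p : (Power C F)[X], p ≠ 0 → p.eval₂ (powerMap C F K) x ≠ 0) (n : ℕ) :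
    ∀ᶠ i in ae C, ¬ DegLe F n (α i) := by
  classical
  let R : ℕ × ℕ → ℕ → Prop := fun p w => toK K p.2 ^ n +
    ∑ k ∈ Finset.range n, algebraMap F K (toK F (getc w k)) * toK K p.2 ^ k = 0
  have hR : ComputablePred fun p : (ℕ × ℕ) × ℕ => R p.1 p.2 := by
    have ha : CK fun p : (ℕ × ℕ) × ℕ => toK K p.1.2 :=
      CK.ofCode (Computable.snd.comp Computable.fst)
    refine CK.eq (CK.add (CK.pow ha (Computable.const n))
      (CK.sum (g := fun (p : (ℕ × ℕ) × ℕ) k =>
        algebraMap F K (toK F (getc p.2 k)) * toK K p.1.2 ^ k) ?_ (Computable.const n)))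
      (CK.const 0)
    exact CK.mul (CK.emb (CK.ofCode (cgetc (Computable.snd.comp Computable.fst) Computable.snd)))
      (CK.pow (CK.comp ha Computable.fst) Computable.snd)
  obtain ⟨χ, hχ1, hχ2⟩ := psearch hφ hR
  have hRE : REPred fun i => i ∈ {i | (χ i).Dom} := hχ1.dom_re
  rcases hC.2 _ hRE with h | h
  · have h1 : ∀ᶠ i in ae C, ¬ (χ i).Dom := by
      rw [eventually_ae]
      refine h.subset fun i hi => ?_
      refine ⟨hi.1, ?_⟩
      by_contra hcon
      exact hi.2 hcon
    filter_upwards [h1, hα] with i hi1 hi2 hdeg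
    apply hi1
    obtain ⟨P, hP0, hPn, hPα⟩ := hdeg
    -- a monic polynomial of degree `n`
    set Q : (F : Type)[X] := X ^ (n - P.natDegree) * (P * Polynomial.C P.leadingCoeff⁻¹) with hQ
    have hmon : (P * Polynomial.C P.leadingCoeff⁻¹).Monic := monic_mul_leadingCoeff_inv hP0
    have hQm : Q.Monic := (monic_X_pow _).mul hmon
    have hQd : Q.natDegree = n := by
      rw [hQ, (monic_X_pow _).natDegree_mul hmon, natDegree_X_pow,
        natDegree_mul_leadingCoeff_inv _ hP0]
      omega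
    have hQα : aeval (α i) Q = 0 := by
      rw [hQ, map_mul, map_mul, hPα, zero_mul, mul_zero]
    obtain ⟨w, hw⟩ := exists_getc (fun k => ((Q.coeff k : F) : ℕ)) n
    have hRw : R (i, (α i : ℕ)) w := by
      simp only [R, toK_coe]
      rw [← hQα]
      conv_rhs => rw [hQm.as_sum, hQd]
      simp only [map_add, map_pow, aeval_X, map_sum, map_mul, aeval_C]
      congr 1
      refine Finset.sum_congr rfl fun k hk => ?_
      rw [hw k (Finset.mem_range.1 hk), toK_coe]
    obtain ⟨w', hw', -⟩ := psearch_mem hχ2 hi2 ⟨w, hRw⟩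
    exact Part.dom_iff_mem.2 ⟨_, hw'⟩
  · exfalso
    have h1 : ∀ᶠ i in ae C, (χ i).Dom := by
      rw [eventually_ae]
      exact h
    let z : ℕ → ℕ := fun i => if h : (χ i).Dom then (χ i).get h else 0
    have hz : ∀ᶠ i in ae C, z i ∈ χ i := by
      filter_upwards [h1] with i hi
      simp only [z, dif_pos hi]
      exact Part.get_mem hi
    let f : ℕ → ℕ → F := fun k i => toK F (getc (z i).unpair.2 k)
    have hf : ∀ k, cls C F (f k) ∈ CohesivePower C F := by
      intro k
      refine ⟨f k, rfl, fun i => (χ i).map fun v => ((toK F (getc v.unpair.2 k) : F) : ℕ),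
        hχ1.map ?_, ?_⟩
      · have : CK fun p : ℕ × ℕ => toK F (getc p.2.unpair.2 k) :=
          CK.ofCode (cgetc (cu2 Computable.snd) (Computable.const k))
        exact this
      · filter_upwards [hz] with i hi
        exact Part.mem_map _ hi
    let c : ℕ → Power C F := fun k => ⟨cls C F (f k), hf k⟩
    have := nontriv hC F
    set p : (Power C F)[X] := X ^ n + ∑ k ∈ Finset.range n, Polynomial.C (c k) * X ^ k with hp
    have hpm : p.Monic := by
      refine monic_X_pow_add (lt_of_le_of_lt (degree_sum_le _ _) ?_)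
      refine (Finset.sup_lt_iff (WithBot.bot_lt_coe n)).2 ?_
      intro k hk
      refine lt_of_le_of_lt (degree_C_mul_X_pow_le _ _) ?_
      exact WithBot.coe_lt_coe.2 (Finset.mem_range.1 hk)
    refine htr p hpm.ne_zero ?_
    have e0 : p.eval₂ (powerMap C F K) x =
        x ^ n + ∑ k ∈ Finset.range n, powerMap C F K (c k) * x ^ k := by
      rw [hp, eval₂_add, eval₂_pow, eval₂_X, eval₂_finsetSum]
      congr 1
      refine Finset.sum_congr rfl fun k _ => ?_
      rw [eval₂_mul, eval₂_C, eval₂_pow, eval₂_X]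
    rw [e0]
    have e1 : subp C K x = cls C K α := hx
    have e2 : ∀ k, subp C K (powerMap C F K (c k)) =
        cls C K fun i => algebraMap F K (f k i) := fun k => cls_map (c k) rfl
    have e3 : subp C K (x ^ n + ∑ k ∈ Finset.range n, powerMap C F K (c k) * x ^ k) =
        cls C K (α ^ n + ∑ k ∈ Finset.range n, (fun i => algebraMap F K (f k i)) * α ^ k) := by
      rw [map_add, map_add, map_pow, map_pow, e1, map_sum, map_sum]
      congr 1
      refine Finset.sum_congr rfl fun k _ => ?_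
      rw [map_mul, map_mul, map_pow, map_pow, e1, e2]
    apply Subtype.ext
    refine e3.trans ?_
    have e4 : (0 : Germ (ae C) K) = cls C K 0 := (map_zero _).symm
    refine Eq.trans ?_ e4.symm
    rw [cls_eq]
    filter_upwards [hα, hz] with i hi1 hi2
    obtain ⟨a, ha, w, hw1, hw2, -⟩ := (hχ2 i (z i)).1 hi2
    obtain rfl : a = (α i : ℕ) := Part.mem_unique ha hi1
    have h5 : ∀ k, f k i = toK F (getc w k) := fun k => by
      simp only [f]; rw [hw1, Nat.unpair_pair]
    simp only [R, toK_coe] at hw2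
    simp only [Pi.add_apply, Pi.pow_apply, Finset.sum_apply, Pi.mul_apply, Pi.zero_apply, h5]
    exact hw2

theorem algInd {α β : ℕ → K} {x y : Power C K} (hx : x.1 = cls C K α)
    (hy : y.1 = cls C K β)
    (hind : ∀ n : ℕ, ∀ᶠ i in ae C, ∀ q : Fin (n * n) → F, ∑ l, algebraMap F K (q l) *
      (α i ^ (l : ℕ).unpair.1 * β i ^ (l : ℕ).unpair.2) = 0 → q = 0) :
    letI := (powerMap C F K).toAlgebra
    AlgebraicIndependent (Power C F) ![x, y] := by
  classical
  letI := (powerMap C F K).toAlgebra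
  rw [algebraicIndependent_iff]
  intro p hp
  set n := max (p.degreeOf 0) (p.degreeOf 1) + 1 with hn
  let mk : Fin (n * n) → (Fin 2 →₀ ℕ) := fun l =>
    Finsupp.single 0 (l : ℕ).unpair.1 + Finsupp.single 1 (l : ℕ).unpair.2
  have mk0 : ∀ l, mk l 0 = (l : ℕ).unpair.1 := fun l => by simp [mk]
  have mk1 : ∀ l, mk l 1 = (l : ℕ).unpair.2 := fun l => by simp [mk]
  have mkinj : Function.Injective mk := by
    intro l l' h
    apply Fin.ext
    rw [← Nat.pair_unpair (l : ℕ), ← mk0, ← mk1, h, mk0, mk1, Nat.pair_unpair]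
  have hsup : ∀ m ∈ p.support, ∃ l, mk l = m := by
    intro m hm
    have h0 := MvPolynomial.monomial_le_degreeOf 0 hm
    have h1 := MvPolynomial.monomial_le_degreeOf 1 hm
    have hlt : Nat.pair (m 0) (m 1) < n * n := by
      refine pair_lt ?_ ?_
      · have := le_max_left (p.degreeOf 0) (p.degreeOf 1); omega
      · have := le_max_right (p.degreeOf 0) (p.degreeOf 1); omega
    refine ⟨⟨_, hlt⟩, ?_⟩
    ext k
    fin_cases k
    · rw [Fin.zero_eta, mk0]; simp
    · rw [Fin.mk_one, mk1]; simp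
  -- representatives
  have hrep : ∀ l : Fin (n * n), ∃ f : ℕ → F, cls C F f = (p.coeff (mk l)).1 := fun l => by
    obtain ⟨f, hf, -⟩ := (p.coeff (mk l)).2
    exact ⟨f, hf⟩
  choose f hf using hrep
  have hsum : MvPolynomial.aeval ![x, y] p =
      ∑ l : Fin (n * n), powerMap C F K (p.coeff (mk l)) *
        (x ^ (l : ℕ).unpair.1 * y ^ (l : ℕ).unpair.2) := by
    rw [MvPolynomial.aeval_def, MvPolynomial.eval₂_eq']
    have h1 : p.support ⊆ Finset.univ.image mk := by
      intro m hm
      obtain ⟨l, rfl⟩ := hsup m hm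
      exact Finset.mem_image_of_mem _ (Finset.mem_univ _)
    rw [Finset.sum_subset h1, Finset.sum_image (fun a _ b _ h => mkinj h)]
    · refine Finset.sum_congr rfl fun l _ => ?_
      rw [Fin.prod_univ_two, mk0, mk1]
      rfl
    · intro m _ hm
      rw [MvPolynomial.notMem_support_iff.1 hm, map_zero, zero_mul]
  rw [hsum] at hp
  have e1 : subp C K x = cls C K α := hx
  have e2 : subp C K y = cls C K β := hy
  have e3 : ∀ l, subp C K (powerMap C F K (p.coeff (mk l))) =
      cls C K fun i => algebraMap F K (f l i) := fun l => cls_map _ (hf l)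
  have h1 := congr_arg (subp C K) hp
  rw [map_sum, map_zero] at h1
  have h2 : cls C K (∑ l : Fin (n * n), (fun i => algebraMap F K (f l i)) *
      (α ^ (l : ℕ).unpair.1 * β ^ (l : ℕ).unpair.2)) = cls C K 0 := by
    rw [map_zero, ← h1, map_sum]
    refine Finset.sum_congr rfl fun l _ => ?_
    rw [map_mul, map_mul, map_mul, map_mul, map_pow, map_pow, map_pow, map_pow, e1, e2, e3]
  rw [cls_eq] at h2
  have h3 : ∀ l, ∀ᶠ i in ae C, f l i = 0 := by
    intro l
    filter_upwards [h2, hind n] with i hi1 hi2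
    refine congr_fun (hi2 (fun l => f l i) ?_) l
    simpa only [Finset.sum_apply, Pi.mul_apply, Pi.pow_apply, Pi.zero_apply] using hi1
  have h4 : ∀ l, p.coeff (mk l) = 0 := by
    intro l
    apply Subtype.ext
    rw [← hf l]
    have : (0 : Germ (ae C) F) = cls C F 0 := (map_zero _).symm
    refine Eq.trans ?_ this.symm
    rw [cls_eq]
    exact h3 l
  ext m
  rw [MvPolynomial.coeff_zero]
  by_cases hm : m ∈ p.support
  · obtain ⟨l, rfl⟩ := hsup m hm
    rw [h4 l]
  · rw [MvPolynomial.notMem_support_iff.1 hm]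

end

end Pool.Agent.R457.CohT
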